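import Pool.Agent.Helper35.MS.StGB

/-!
Project MS (MP_925021_gt): module GLF (the frame identity).
-/

set_option autoImplicit false

namespace Helper87.MS

open Helper35.MS Helper35.PI Helper35.PI2 Helper32.CL
open scoped ContDiff Manifold Topology ENNReal BigOperators
open MeasureTheory Set Filter

section Abs

variable {X H : Type} [NormedAddCommGroup X] [NormedSpace ℝ X] [NormedAddCommGroup H]
  [InnerProductSpace ℝ H]

/-- `⟨∂_a e₁, ∂_b e₂⟩ - ⟨∂_b e₁, ∂_a e₂⟩` -/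
noncomputable def Om (e1 e2 : X → H) (a b z : X) : ℝ :=
  inner ℝ (fderiv ℝ e1 z a) (fderiv ℝ e2 z b) - inner ℝ (fderiv ℝ e1 z b) (fderiv ℝ e2 z a)

theorem Om_anti (e1 e2 : X → H) (a b z : X) : Om e1 e2 b a z = - Om e1 e2 a b z := by
  unfold Om; ring

theorem hasFDerivAt_apply {e : X → H} {z : X} (h : ContDiffAt ℝ ∞ e z) (a : X) :
    HasFDerivAt (fun y => fderiv ℝ e y a) ((fderiv ℝ (fderiv ℝ e) z).flip a) z := by
  have h1 : ContDiffAt ℝ ∞ (fderiv ℝ e) z := h.fderiv_right (by simp)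
  have h2 : HasFDerivAt (fderiv ℝ e) (fderiv ℝ (fderiv ℝ e) z) z :=
    (h1.differentiableAt (by simp)).hasFDerivAt
  have h3 := h2.clm_apply (hasFDerivAt_const a z)
  refine h3.congr_fderiv ?_
  ext c
  simp

theorem inner_fderiv {f g : X → H} {f' g' : X →L[ℝ] H} {z : X} (hf : HasFDerivAt f f' z)
    (hg : HasFDerivAt g g' z) (c : X) :
    DifferentiableAt ℝ (fun y => (inner ℝ (f y) (g y) : ℝ)) z ∧
    fderiv ℝ (fun y => (inner ℝ (f y) (g y) : ℝ)) z c = inner ℝ (f z) (g' c) + inner ℝ (f' c) (g z) := by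
  have h := hf.inner ℝ hg
  refine ⟨h.differentiableAt, ?_⟩
  rw [h.fderiv]
  simp

theorem Om_diff {e1 e2 : X → H} {z : X} (h1 : ContDiffAt ℝ ∞ e1 z) (h2 : ContDiffAt ℝ ∞ e2 z)
    (a b : X) : DifferentiableAt ℝ (Om e1 e2 a b) z := by
  have k1 := (inner_fderiv (hasFDerivAt_apply h1 a) (hasFDerivAt_apply h2 b) 0).1
  have k2 := (inner_fderiv (hasFDerivAt_apply h1 b) (hasFDerivAt_apply h2 a) 0).1
  exact k1.sub k2

theorem Om_fderiv {e1 e2 : X → H} {z : X} (h1 : ContDiffAt ℝ ∞ e1 z) (h2 : ContDiffAt ℝ ∞ e2 z)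
    (a b c : X) : fderiv ℝ (Om e1 e2 a b) z c =
      (inner ℝ (fderiv ℝ e1 z a) (fderiv ℝ (fderiv ℝ e2) z c b)
        + inner ℝ (fderiv ℝ (fderiv ℝ e1) z c a) (fderiv ℝ e2 z b))
      - (inner ℝ (fderiv ℝ e1 z b) (fderiv ℝ (fderiv ℝ e2) z c a)
        + inner ℝ (fderiv ℝ (fderiv ℝ e1) z c b) (fderiv ℝ e2 z a)) := by
  have k1 := inner_fderiv (hasFDerivAt_apply h1 a) (hasFDerivAt_apply h2 b) c
  have k2 := inner_fderiv (hasFDerivAt_apply h1 b) (hasFDerivAt_apply h2 a) c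
  have k3 : fderiv ℝ (Om e1 e2 a b) z = fderiv ℝ (fun y => (inner ℝ (fderiv ℝ e1 y a)
      (fderiv ℝ e2 y b) : ℝ)) z - fderiv ℝ (fun y => (inner ℝ (fderiv ℝ e1 y b)
      (fderiv ℝ e2 y a) : ℝ)) z := fderiv_sub k1.1 k2.1
  rw [k3, sub_apply, k1.2, k2.2]
  simp

theorem sym2 {e : X → H} {z : X} (h : ContDiffAt ℝ ∞ e z) (a b : X) :
    fderiv ℝ (fderiv ℝ e) z a b = fderiv ℝ (fderiv ℝ e) z b a := by
  have h2 : minSmoothness ℝ 2 ≤ (∞ : WithTop ℕ∞) := by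
    rw [minSmoothness_of_isRCLikeNormedField]
    have : ((2 : ℕ∞) : ℕ∞ω) ≤ ((⊤ : ℕ∞) : ℕ∞ω) := WithTop.coe_le_coe.mpr le_top
    exact this
  exact h.isSymmSndFDerivAt h2 a b

/-- the cyclic identity -/
theorem Om_cyc {e1 e2 : X → H} {z : X} (h1 : ContDiffAt ℝ ∞ e1 z) (h2 : ContDiffAt ℝ ∞ e2 z)
    (a b c : X) : fderiv ℝ (Om e1 e2 a b) z c + fderiv ℝ (Om e1 e2 b c) z a
      + fderiv ℝ (Om e1 e2 c a) z b = 0 := by
  rw [Om_fderiv h1 h2, Om_fderiv h1 h2, Om_fderiv h1 h2, sym2 h1 c a, sym2 h1 c b, sym2 h1 b a,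
    sym2 h2 c a, sym2 h2 c b, sym2 h2 b a]
  ring

/-- only the parts normal to the orthonormal pair matter -/
theorem proj_key {e1 e2 : X → H} {z : X} {d1' d2' : X →L[ℝ] H} (d1 : HasFDerivAt e1 d1' z)
    (d2 : HasFDerivAt e2 d2' z)
    (on : ∀ᶠ y in 𝓝 z, (inner ℝ (e1 y) (e1 y) : ℝ) = 1 ∧ (inner ℝ (e2 y) (e2 y) : ℝ) = 1 ∧
      (inner ℝ (e1 y) (e2 y) : ℝ) = 0)
    (P : H →ₗ[ℝ] H) (hPe1 : ∀ v, (inner ℝ (P v) (e1 z) : ℝ) = 0)
    (hPe2 : ∀ v, (inner ℝ (P v) (e2 z) : ℝ) = 0)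
    (dec : ∀ v, ∃ s t : ℝ, v = P v + s • e1 z + t • e2 z) (u v : X) :
    (inner ℝ (d1' u) (d2' v) : ℝ) = inner ℝ (P (d1' u)) (P (d2' v)) := by
  have onz := on.self_of_nhds
  have z1 : ∀ v : X, (inner ℝ (d1' v) (e1 z) : ℝ) = 0 := by
    intro v
    have k1 := (inner_fderiv d1 d1 v).2
    have k2 : fderiv ℝ (fun y => (inner ℝ (e1 y) (e1 y) : ℝ)) z = 0 := by
      have : (fun y => (inner ℝ (e1 y) (e1 y) : ℝ)) =ᶠ[𝓝 z] fun _ => (1 : ℝ) :=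
        on.mono fun y hy => hy.1
      rw [this.fderiv_eq]
      simp
    rw [k2] at k1
    have k3 := real_inner_comm (e1 z) (d1' v)
    simp at k1
    linarith
  have z2 : ∀ v : X, (inner ℝ (d2' v) (e2 z) : ℝ) = 0 := by
    intro v
    have k1 := (inner_fderiv d2 d2 v).2
    have k2 : fderiv ℝ (fun y => (inner ℝ (e2 y) (e2 y) : ℝ)) z = 0 := by
      have : (fun y => (inner ℝ (e2 y) (e2 y) : ℝ)) =ᶠ[𝓝 z] fun _ => (1 : ℝ) :=
        on.mono fun y hy => hy.2.1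
      rw [this.fderiv_eq]
      simp
    rw [k2] at k1
    have k3 := real_inner_comm (e2 z) (d2' v)
    simp at k1
    linarith
  obtain ⟨s, t, h1'⟩ := dec (d1' u)
  obtain ⟨s', t', h2'⟩ := dec (d2' v)
  have k1 := z1 u
  have k2 := z2 v
  have o12 := onz.2.2
  have o21 : (inner ℝ (e2 z) (e1 z) : ℝ) = 0 := by rw [real_inner_comm]; exact o12
  have a1 : s = 0 := by
    rw [h1', inner_add_left, inner_add_left, real_inner_smul_left, real_inner_smul_left, hPe1,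
      onz.1, o21] at k1
    linarith
  have a2 : t' = 0 := by
    rw [h2', inner_add_left, inner_add_left, real_inner_smul_left, real_inner_smul_left, hPe2,
      onz.2.1, o12] at k2
    linarith
  rw [a1, zero_smul, add_zero] at h1'
  rw [a2, zero_smul, add_zero] at h2'
  have b1 : (inner ℝ (e2 z) (P (d2' v)) : ℝ) = 0 := by
    rw [real_inner_comm]; exact hPe2 _
  calc (inner ℝ (d1' u) (d2' v) : ℝ)
      = inner ℝ (P (d1' u) + t • e2 z) (P (d2' v) + s' • e1 z) := by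
        rw [← h1', ← h2']
    _ = _ := by
        rw [inner_add_left, inner_add_right, inner_add_right, real_inner_smul_left,
          real_inner_smul_left, real_inner_smul_right, real_inner_smul_right, hPe1, b1, o21]
        ring

/-- the Gram-Schmidt frame and the form `Om` -/
theorem Om_frame {m : ℕ∞ω} (hm : m ≠ 0) {F0 F1 : X → H} {z : X} (h0 : ContDiffAt ℝ m F0 z)
    (h1 : ContDiffAt ℝ m F1 z)
    (hg : 0 < (inner ℝ (F0 z) (F0 z) : ℝ))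
    (hD : 0 < (inner ℝ (F0 z) (F0 z) : ℝ) * inner ℝ (F1 z) (F1 z) - inner ℝ (F0 z) (F1 z) ^ 2)
    (c1 c2 c3 : X → ℝ)
    (hc1 : c1 = fun y => 1 / Real.sqrt (inner ℝ (F0 y) (F0 y)))
    (hc2 : c2 = fun y => -((inner ℝ (F0 y) (F1 y) : ℝ)) / (Real.sqrt (inner ℝ (F0 y) (F0 y)) *
      Real.sqrt ((inner ℝ (F0 y) (F0 y) : ℝ) * inner ℝ (F1 y) (F1 y) - inner ℝ (F0 y) (F1 y) ^ 2)))
    (hc3 : c3 = fun y => Real.sqrt (inner ℝ (F0 y) (F0 y)) /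
      Real.sqrt ((inner ℝ (F0 y) (F0 y) : ℝ) * inner ℝ (F1 y) (F1 y) - inner ℝ (F0 y) (F1 y) ^ 2))
    (e1 e2 : X → H) (he1 : e1 = fun y => c1 y • F0 y)
    (he2 : e2 = fun y => c2 y • F0 y + c3 y • F1 y) :
    ContDiffAt ℝ m e1 z ∧ ContDiffAt ℝ m e2 z ∧
    ∀ P : H →ₗ[ℝ] H, P (F0 z) = 0 → P (F1 z) = 0 →
      (∀ v, (inner ℝ (P v) (F0 z) : ℝ) = 0 ∧ (inner ℝ (P v) (F1 z) : ℝ) = 0) →
      (∀ v, ∃ s t : ℝ, v - P v = s • F0 z + t • F1 z) → ∀ a b : X,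
      Om e1 e2 a b z =
        (inner ℝ (P (fderiv ℝ F0 z a)) (P (fderiv ℝ F1 z b))
          - inner ℝ (P (fderiv ℝ F0 z b)) (P (fderiv ℝ F1 z a))) /
        Real.sqrt ((inner ℝ (F0 z) (F0 z) : ℝ) * inner ℝ (F1 z) (F1 z)
          - inner ℝ (F0 z) (F1 z) ^ 2) := by
  -- smoothness
  have s00 : ContDiffAt ℝ m (fun y => (inner ℝ (F0 y) (F0 y) : ℝ)) z := h0.inner ℝ h0
  have s01 : ContDiffAt ℝ m (fun y => (inner ℝ (F0 y) (F1 y) : ℝ)) z := h0.inner ℝ h1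
  have s11 : ContDiffAt ℝ m (fun y => (inner ℝ (F1 y) (F1 y) : ℝ)) z := h1.inner ℝ h1
  have sD : ContDiffAt ℝ m (fun y => (inner ℝ (F0 y) (F0 y) : ℝ) * inner ℝ (F1 y) (F1 y)
      - inner ℝ (F0 y) (F1 y) ^ 2) z := (s00.mul s11).sub (s01.pow 2)
  have r00 : ContDiffAt ℝ m (fun y => Real.sqrt (inner ℝ (F0 y) (F0 y))) z := s00.sqrt hg.ne'
  have rD : ContDiffAt ℝ m (fun y => Real.sqrt ((inner ℝ (F0 y) (F0 y) : ℝ) * inner ℝ (F1 y) (F1 y)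
      - inner ℝ (F0 y) (F1 y) ^ 2)) z := sD.sqrt hD.ne'
  have p00 : 0 < Real.sqrt (inner ℝ (F0 z) (F0 z)) := Real.sqrt_pos.mpr hg
  have pD : 0 < Real.sqrt ((inner ℝ (F0 z) (F0 z) : ℝ) * inner ℝ (F1 z) (F1 z)
      - inner ℝ (F0 z) (F1 z) ^ 2) := Real.sqrt_pos.mpr hD
  have t1 : ContDiffAt ℝ m c1 z := by
    rw [hc1]; exact contDiffAt_const.div r00 p00.ne'
  have t2 : ContDiffAt ℝ m c2 z := by
    rw [hc2]; exact s01.neg.div (r00.mul rD) (mul_pos p00 pD).ne'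
  have t3 : ContDiffAt ℝ m c3 z := by
    rw [hc3]; exact r00.div rD pD.ne'
  have u1 : ContDiffAt ℝ m e1 z := by rw [he1]; exact t1.smul h0
  have u2 : ContDiffAt ℝ m e2 z := by rw [he2]; exact (t2.smul h0).add (t3.smul h1)
  refine ⟨u1, u2, ?_⟩
  intro P hP0 hP1 hPo hPs a b
  -- orthonormality near `z`
  have ev1 : ∀ᶠ y in 𝓝 z, 0 < (inner ℝ (F0 y) (F0 y) : ℝ) :=
    s00.continuousAt.eventually (lt_mem_nhds hg)
  have ev2 : ∀ᶠ y in 𝓝 z, 0 < (inner ℝ (F0 y) (F0 y) : ℝ) * inner ℝ (F1 y) (F1 y)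
      - inner ℝ (F0 y) (F1 y) ^ 2 := sD.continuousAt.eventually (lt_mem_nhds hD)
  have on : ∀ᶠ y in 𝓝 z, (inner ℝ (e1 y) (e1 y) : ℝ) = 1 ∧ (inner ℝ (e2 y) (e2 y) : ℝ) = 1 ∧
      (inner ℝ (e1 y) (e2 y) : ℝ) = 0 := by
    filter_upwards [ev1, ev2] with y hy1 hy2
    have q1 : Real.sqrt (inner ℝ (F0 y) (F0 y)) ^ 2 = inner ℝ (F0 y) (F0 y) :=
      Real.sq_sqrt hy1.le
    have q2 : Real.sqrt ((inner ℝ (F0 y) (F0 y) : ℝ) * inner ℝ (F1 y) (F1 y)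
      - inner ℝ (F0 y) (F1 y) ^ 2) ^ 2 = (inner ℝ (F0 y) (F0 y) : ℝ) * inner ℝ (F1 y) (F1 y)
      - inner ℝ (F0 y) (F1 y) ^ 2 := Real.sq_sqrt hy2.le
    have q3 : 0 < Real.sqrt (inner ℝ (F0 y) (F0 y)) := Real.sqrt_pos.mpr hy1
    have q4 : 0 < Real.sqrt ((inner ℝ (F0 y) (F0 y) : ℝ) * inner ℝ (F1 y) (F1 y)
      - inner ℝ (F0 y) (F1 y) ^ 2) := Real.sqrt_pos.mpr hy2
    have q5 : (inner ℝ (F1 y) (F0 y) : ℝ) = inner ℝ (F0 y) (F1 y) := real_inner_comm _ _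
    simp only [he1, he2, inner_add_left, inner_add_right, real_inner_smul_left,
      real_inner_smul_right, q5, hc1, hc2, hc3]
    generalize Real.sqrt ((inner ℝ (F0 y) (F0 y) : ℝ) * inner ℝ (F1 y) (F1 y)
      - inner ℝ (F0 y) (F1 y) ^ 2) = d at q2 q4 ⊢
    generalize hr : Real.sqrt (inner ℝ (F0 y) (F0 y)) = r at q1 q3 ⊢
    generalize (inner ℝ (F0 y) (F0 y) : ℝ) = g0 at q1 q2 ⊢
    generalize (inner ℝ (F0 y) (F1 y) : ℝ) = g1 at q2 ⊢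
    generalize (inner ℝ (F1 y) (F1 y) : ℝ) = g2 at q2 ⊢
    subst q1
    refine ⟨?_, ?_, ?_⟩
    · field_simp
    · field_simp
      rw [q2]
      ring
    · field_simp
      ring
  have d1 : HasFDerivAt e1 (fderiv ℝ e1 z) z := (u1.differentiableAt hm).hasFDerivAt
  have d2 : HasFDerivAt e2 (fderiv ℝ e2 z) z := (u2.differentiableAt hm).hasFDerivAt
  have hPe1 : ∀ v, (inner ℝ (P v) (e1 z) : ℝ) = 0 := by
    intro v
    simp only [he1, real_inner_smul_right, (hPo v).1, mul_zero]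
  have hPe2 : ∀ v, (inner ℝ (P v) (e2 z) : ℝ) = 0 := by
    intro v
    simp only [he2, inner_add_right, real_inner_smul_right, (hPo v).1, (hPo v).2, mul_zero,
      add_zero]
  have hc1p : c1 z ≠ 0 := by rw [hc1]; exact (div_pos one_pos p00).ne'
  have hc3p : c3 z ≠ 0 := by rw [hc3]; exact (div_pos p00 pD).ne'
  -- decomposition
  have dec : ∀ v, ∃ s t : ℝ, v = P v + s • e1 z + t • e2 z := by
    intro v
    obtain ⟨s, t, hst⟩ := hPs v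
    refine ⟨(s - t * c2 z / c3 z) / c1 z, t / c3 z, ?_⟩
    have e : v = P v + (s • F0 z + t • F1 z) := by rw [← hst]; abel
    have e' : ((s - t * c2 z / c3 z) / c1 z) • e1 z + (t / c3 z) • e2 z = s • F0 z + t • F1 z := by
      simp only [he1, he2, smul_add, smul_smul]
      have k1 : (s - t * c2 z / c3 z) / c1 z * c1 z = s - t * c2 z / c3 z := by field_simp
      have k2 : t / c3 z * c3 z = t := by field_simp
      rw [k1, k2, ← add_assoc, ← add_smul]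
      congr 2
      ring
    rw [add_assoc, e', ← e]
  have key : ∀ u v : X, (inner ℝ (fderiv ℝ e1 z u) (fderiv ℝ e2 z v) : ℝ) =
      inner ℝ (P (fderiv ℝ e1 z u)) (P (fderiv ℝ e2 z v)) :=
    proj_key d1 d2 on P hPe1 hPe2 dec
  -- the projected derivatives
  have df0 : HasFDerivAt F0 (fderiv ℝ F0 z) z := (h0.differentiableAt hm).hasFDerivAt
  have df1 : HasFDerivAt F1 (fderiv ℝ F1 z) z := (h1.differentiableAt hm).hasFDerivAt
  have dc1 : HasFDerivAt c1 (fderiv ℝ c1 z) z := (t1.differentiableAt hm).hasFDerivAt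
  have dc2 : HasFDerivAt c2 (fderiv ℝ c2 z) z := (t2.differentiableAt hm).hasFDerivAt
  have dc3 : HasFDerivAt c3 (fderiv ℝ c3 z) z := (t3.differentiableAt hm).hasFDerivAt
  have Pe1 : ∀ u : X, P (fderiv ℝ e1 z u) = c1 z • P (fderiv ℝ F0 z u) := by
    intro u
    have k' : fderiv ℝ e1 z = c1 z • fderiv ℝ F0 z + (fderiv ℝ c1 z).smulRight (F0 z) := by
      rw [he1]; exact (dc1.smul df0).fderiv
    rw [k']
    simp [hP0]
  have Pe2 : ∀ u : X, P (fderiv ℝ e2 z u) = c2 z • P (fderiv ℝ F0 z u)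
      + c3 z • P (fderiv ℝ F1 z u) := by
    intro u
    have k' : fderiv ℝ e2 z = (c2 z • fderiv ℝ F0 z + (fderiv ℝ c2 z).smulRight (F0 z))
        + (c3 z • fderiv ℝ F1 z + (fderiv ℝ c3 z).smulRight (F1 z)) := by
      rw [he2]; exact ((dc2.smul df0).add (dc3.smul df1)).fderiv
    rw [k']
    simp [hP0, hP1]
  unfold Om
  rw [key, key, Pe1, Pe1, Pe2, Pe2]
  simp only [inner_add_right, real_inner_smul_left, real_inner_smul_right]
  have k1 := real_inner_comm (P (fderiv ℝ F0 z a)) (P (fderiv ℝ F0 z b))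
  have k2 : c1 z * c3 z = 1 / Real.sqrt ((inner ℝ (F0 z) (F0 z) : ℝ) * inner ℝ (F1 z) (F1 z)
      - inner ℝ (F0 z) (F1 z) ^ 2) := by
    rw [hc1, hc3]
    simp only
    have p00' := p00.ne'
    have pD' := pD.ne'
    field_simp
  rw [div_eq_mul_one_div, ← k2, k1]
  ring

end Abs

/-- the derivative in the space direction -/
theorem fderiv_space {Y : Type} [NormedAddCommGroup Y] [NormedSpace ℝ Y] {φ : EE 2 × ℝ → Y}
    {z : EE 2 × ℝ} (h : DifferentiableAt ℝ φ z) (v : EE 2) :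
    fderiv ℝ (fun y => φ (y, z.2)) z.1 v = fderiv ℝ φ z (v, 0) := by
  have k1 : HasFDerivAt (fun y : EE 2 => (y, z.2)) (ContinuousLinearMap.inl ℝ (EE 2) ℝ) z.1 :=
    (hasFDerivAt_id z.1).prodMk (hasFDerivAt_const z.2 z.1)
  have k2 : HasFDerivAt φ (fderiv ℝ φ z) ((fun y : EE 2 => (y, z.2)) z.1) := h.hasFDerivAt
  have k3 := (k2.comp z.1 k1).fderiv
  have k4 : fderiv ℝ (fun y => φ (y, z.2)) z.1 = _ := k3
  rw [k4]
  simp

/-- the derivative in the time direction -/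
theorem deriv_time {φ : EE 2 × ℝ → ℝ} {z : EE 2 × ℝ} (h : DifferentiableAt ℝ φ z) :
    HasDerivAt (fun s => φ (z.1, s)) (fderiv ℝ φ z (0, 1)) z.2 := by
  have k1 : HasFDerivAt (fun s : ℝ => (z.1, s)) (ContinuousLinearMap.inr ℝ (EE 2) ℝ) z.2 :=
    (hasFDerivAt_const z.1 z.2).prodMk (hasFDerivAt_id z.2)
  have k2 : HasFDerivAt φ (fderiv ℝ φ z) ((fun s : ℝ => (z.1, s)) z.2) := h.hasFDerivAt
  have k3 : HasDerivAt (fun s => φ (z.1, s))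
      ((fderiv ℝ φ z ∘L ContinuousLinearMap.inr ℝ (EE 2) ℝ) 1) z.2 :=
    (k2.comp z.2 k1).hasDerivAt
  exact k3.congr_deriv (by simp)

/-- the form `Om` of the Gram-Schmidt frame of a moving surface, near `z₀` -/
theorem Om_eval (hNR : StNR) (hFR : StFR) {N : ℕ} (f : EE 2 × ℝ → EE N) (z : EE 2 × ℝ)
    (hLI : LI (fun y => f (y, z.2)) z.1) (hf : ContDiffAt ℝ 5 f z)
    (hd1 : ∀ i, dv1 (fun y => f (y, z.2)) z.1 i = jg f z i)
    (hd2 : ∀ i j, dv2 (fun y => f (y, z.2)) z.1 i j = jgg f z i j)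
    (hsy : ∀ i j, jgg f z i j = jgg f z j i)
    (c1 c2 c3 : EE 2 × ℝ → ℝ) (F0 F1 : EE 2 × ℝ → EE N) (hF0 : F0 = fun z => jg f z 0)
    (hF1 : F1 = fun z => jg f z 1)
    (hc1 : c1 = fun y => 1 / Real.sqrt (inner ℝ (F0 y) (F0 y)))
    (hc2 : c2 = fun y => -((inner ℝ (F0 y) (F1 y) : ℝ)) / (Real.sqrt (inner ℝ (F0 y) (F0 y)) *
      Real.sqrt ((inner ℝ (F0 y) (F0 y) : ℝ) * inner ℝ (F1 y) (F1 y) - inner ℝ (F0 y) (F1 y) ^ 2)))
    (hc3 : c3 = fun y => Real.sqrt (inner ℝ (F0 y) (F0 y)) /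
      Real.sqrt ((inner ℝ (F0 y) (F0 y) : ℝ) * inner ℝ (F1 y) (F1 y) - inner ℝ (F0 y) (F1 y) ^ 2))
    (e1 e2 : EE 2 × ℝ → EE N) (he1 : e1 = fun y => c1 y • F0 y)
    (he2 : e2 = fun y => c2 y • F0 y + c3 y • F1 y)
    (A : Fin 2 → Fin 2 → EE N) (V : Fin 2 → EE N) (w : ℝ)
    (hA : A = (fun i j => sff (fun y => f (y, z.2)) z.1 i j))
    (hV : V = (fun j => fderiv ℝ (fun y => jt f (y, z.2)) z.1 (ee j)))
    (hw : w = sgm (fun y => f (y, z.2)) z.1) :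
    0 < (inner ℝ (F0 z) (F0 z) : ℝ) ∧
    0 < (inner ℝ (F0 z) (F0 z) : ℝ) * inner ℝ (F1 z) (F1 z) - inner ℝ (F0 z) (F1 z) ^ 2 ∧
    Om e1 e2 (ee 0, 0) (ee 1, 0) z = ((inner ℝ (A 0 0) (A 1 1) : ℝ) - ‖A 0 1‖ ^ 2) / w ∧
    Om e1 e2 (ee 1, 0) (0, 1) z =
      - (((inner ℝ (A 1 1) (V 0) : ℝ) - inner ℝ (A 0 1) (V 1)) / w) ∧
    Om e1 e2 (0, 1) (ee 0, 0) z =
      - (((inner ℝ (A 0 0) (V 1) : ℝ) - inner ℝ (A 0 1) (V 0)) / w) := by
  obtain ⟨n1, n2, n3, n4, n5, n6, n7, -⟩ := hNR 2 N (fun y => f (y, z.2)) z.1 hLI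
  have hpd := (hFR 2 N (fun y => f (y, z.2)) z.1 hLI).1
  have g00 : gram (fun y => f (y, z.2)) z.1 0 0 = inner ℝ (F0 z) (F0 z) := by
    simp only [gram, Matrix.of_apply, hd1, hF0]
  have g01 : gram (fun y => f (y, z.2)) z.1 0 1 = inner ℝ (F0 z) (F1 z) := by
    simp only [gram, Matrix.of_apply, hd1, hF0, hF1]
  have g10 : gram (fun y => f (y, z.2)) z.1 1 0 = inner ℝ (F0 z) (F1 z) := by
    simp only [gram, Matrix.of_apply, hd1, hF0, hF1]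
    exact real_inner_comm _ _
  have g11 : gram (fun y => f (y, z.2)) z.1 1 1 = inner ℝ (F1 z) (F1 z) := by
    simp only [gram, Matrix.of_apply, hd1, hF1]
  have hdet : (gram (fun y => f (y, z.2)) z.1).det
      = (inner ℝ (F0 z) (F0 z) : ℝ) * inner ℝ (F1 z) (F1 z) - inner ℝ (F0 z) (F1 z) ^ 2 := by
    rw [Matrix.det_fin_two, g00, g01, g10, g11]; ring
  have hg : 0 < (inner ℝ (F0 z) (F0 z) : ℝ) := by
    rw [← g00]
    exact hpd.diag_pos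
  have hD : 0 < (inner ℝ (F0 z) (F0 z) : ℝ) * inner ℝ (F1 z) (F1 z) - inner ℝ (F0 z) (F1 z) ^ 2 := by
    rw [← hdet]
    exact hpd.det_pos
  -- smoothness of the first derivatives
  have hf1 : ContDiffAt ℝ 4 (fderiv ℝ f) z := hf.fderiv_right (by norm_num)
  have h0 : ContDiffAt ℝ 4 F0 z := by
    rw [hF0]
    exact hf1.clm_apply contDiffAt_const
  have h1 : ContDiffAt ℝ 4 F1 z := by
    rw [hF1]
    exact hf1.clm_apply contDiffAt_const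
  obtain ⟨-, -, hOm⟩ := Om_frame (m := 4) (by norm_num) h0 h1 hg hD c1 c2 c3 hc1 hc2 hc3 e1 e2
    he1 he2
  -- the projection
  let P : EE N →ₗ[ℝ] EE N :=
    { toFun := nrm (fun y => f (y, z.2)) z.1
      map_add' := n5
      map_smul' := n6 }
  have hPd : ∀ v, P v = nrm (fun y => f (y, z.2)) z.1 v := fun v => rfl
  have e0 : F0 z = dv1 (fun y => f (y, z.2)) z.1 0 := by rw [hd1, hF0]
  have e1' : F1 z = dv1 (fun y => f (y, z.2)) z.1 1 := by rw [hd1, hF1]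
  have hOm' := hOm P (by rw [hPd, e0]; exact n2 _ (Submodule.subset_span ⟨0, rfl⟩))
    (by rw [hPd, e1']; exact n2 _ (Submodule.subset_span ⟨1, rfl⟩))
    (fun v => ⟨by rw [hPd, e0]; exact n1 v 0, by rw [hPd, e1']; exact n1 v 1⟩)
    (by
      intro v
      have k := n3 v
      rw [← hPd] at k
      have hr : (range fun i => dv1 (fun y => f (y, z.2)) z.1 i) = {F0 z, F1 z} := by
        rw [e0, e1']
        ext x
        simp [Fin.exists_fin_two, eq_comm]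
      rw [hr, Submodule.mem_span_pair] at k
      obtain ⟨s, t, hst⟩ := k
      exact ⟨s, t, hst.symm⟩)
  clear hOm
  -- the second derivatives
  have D00 : fderiv ℝ F0 z (ee 0, 0) = dv2 (fun y => f (y, z.2)) z.1 0 0 := by
    rw [hd2, hF0]; rfl
  have D10 : fderiv ℝ F0 z (ee 1, 0) = dv2 (fun y => f (y, z.2)) z.1 0 1 := by
    rw [hd2, hsy, hF0]; rfl
  have D01 : fderiv ℝ F1 z (ee 0, 0) = dv2 (fun y => f (y, z.2)) z.1 0 1 := by
    rw [hd2, hF1]; rfl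
  have D11 : fderiv ℝ F1 z (ee 1, 0) = dv2 (fun y => f (y, z.2)) z.1 1 1 := by
    rw [hd2, hF1]; rfl
  have hjt : DifferentiableAt ℝ (jt f) z := by
    have k : ContDiffAt ℝ 4 (jt f) z := hf1.clm_apply contDiffAt_const
    exact k.differentiableAt (by norm_num)
  have hsym : IsSymmSndFDerivAt ℝ f z := by
    refine hf.isSymmSndFDerivAt ?_
    rw [minSmoothness_of_isRCLikeNormedField]
    norm_num
  have hff : HasFDerivAt (fderiv ℝ f) (fderiv ℝ (fderiv ℝ f) z) z :=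
    (hf1.differentiableAt (by norm_num)).hasFDerivAt
  have happ : ∀ a c : EE 2 × ℝ, fderiv ℝ (fun y => fderiv ℝ f y a) z c
      = fderiv ℝ (fderiv ℝ f) z c a := by
    intro a c
    have k := (hff.clm_apply (hasFDerivAt_const a z)).fderiv
    have k' : fderiv ℝ (fun y => fderiv ℝ f y a) z = _ := k
    rw [k']
    simp
  have Dt : ∀ j, fderiv ℝ (fun z => jg f z j) z (0, 1) = V j := by
    intro j
    rw [hV]
    simp only
    rw [fderiv_space hjt]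
    unfold jg jt
    rw [happ, happ]
    exact hsym _ _
  have Dt0 : fderiv ℝ F0 z (0, 1) = V 0 := by rw [hF0]; exact Dt 0
  have Dt1 : fderiv ℝ F1 z (0, 1) = V 1 := by rw [hF1]; exact Dt 1
  have PA : ∀ i j, P (dv2 (fun y => f (y, z.2)) z.1 i j) = A i j := by
    intro i j
    rw [hA]; rfl
  have PP : ∀ v, P (P v) = P v := by
    intro v
    rw [hPd, hPd]
    exact n4 _ (n1 v)
  have Pin : ∀ u v, (inner ℝ (P u) (P v) : ℝ) = inner ℝ (P u) v := by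
    intro u v
    have k := n7 (P u) v
    rw [← hPd, ← hPd, PP] at k
    exact k.symm
  have hw' : w = Real.sqrt ((inner ℝ (F0 z) (F0 z) : ℝ) * inner ℝ (F1 z) (F1 z)
      - inner ℝ (F0 z) (F1 z) ^ 2) := by
    rw [hw, ← hdet]; rfl
  refine ⟨hg, hD, ?_, ?_, ?_⟩
  · rw [hOm', D00, D11, D10, D01, PA, PA, PA, ← hw', real_inner_self_eq_norm_sq]
  · rw [hOm', D10, D11, Dt0, Dt1, ← hw']
    rw [real_inner_comm (P (dv2 (fun y => f (y, z.2)) z.1 1 1)) (P (V 0)), Pin, Pin, PA, PA]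
    ring
  · rw [hOm', D00, D01, Dt0, Dt1, ← hw']
    rw [real_inner_comm (P (dv2 (fun y => f (y, z.2)) z.1 0 1)) (P (V 0)), Pin, Pin, PA, PA]
    ring

/-- GLF. The frame identity. -/
theorem hGLF (hSM : Helper35.PI.StSM) (hNR : StNR) (hFR : StFR) (_hV1 : StV1) : StGLF := by
  intro N f z₀ hf hLI E U0 U1 A V hA hV hE hU0 hU1
  obtain ⟨hev, hjg, -⟩ := hSM 2 N f z₀ hf hLI
  -- the frame
  obtain ⟨F0, hF0⟩ : ∃ F0 : EE 2 × ℝ → EE N, F0 = fun z => jg f z 0 := ⟨_, rfl⟩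
  obtain ⟨F1, hF1⟩ : ∃ F1 : EE 2 × ℝ → EE N, F1 = fun z => jg f z 1 := ⟨_, rfl⟩
  obtain ⟨c1, hc1⟩ : ∃ c1 : EE 2 × ℝ → ℝ, c1 = fun y => 1 / Real.sqrt (inner ℝ (F0 y) (F0 y)) :=
    ⟨_, rfl⟩
  obtain ⟨c2, hc2⟩ : ∃ c2 : EE 2 × ℝ → ℝ, c2 = fun y => -((inner ℝ (F0 y) (F1 y) : ℝ)) /
      (Real.sqrt (inner ℝ (F0 y) (F0 y)) * Real.sqrt ((inner ℝ (F0 y) (F0 y) : ℝ) *
        inner ℝ (F1 y) (F1 y) - inner ℝ (F0 y) (F1 y) ^ 2)) := ⟨_, rfl⟩
  obtain ⟨c3, hc3⟩ : ∃ c3 : EE 2 × ℝ → ℝ, c3 = fun y => Real.sqrt (inner ℝ (F0 y) (F0 y)) /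
      Real.sqrt ((inner ℝ (F0 y) (F0 y) : ℝ) * inner ℝ (F1 y) (F1 y)
        - inner ℝ (F0 y) (F1 y) ^ 2) := ⟨_, rfl⟩
  obtain ⟨e1, he1⟩ : ∃ e1 : EE 2 × ℝ → EE N, e1 = fun y => c1 y • F0 y := ⟨_, rfl⟩
  obtain ⟨e2, he2⟩ : ∃ e2 : EE 2 × ℝ → EE N, e2 = fun y => c2 y • F0 y + c3 y • F1 y := ⟨_, rfl⟩
  have hall : ∀ᶠ z in 𝓝 z₀, 0 < (inner ℝ (F0 z) (F0 z) : ℝ) ∧
    0 < (inner ℝ (F0 z) (F0 z) : ℝ) * inner ℝ (F1 z) (F1 z) - inner ℝ (F0 z) (F1 z) ^ 2 ∧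
    Om e1 e2 (ee 0, 0) (ee 1, 0) z = E z ∧ Om e1 e2 (ee 1, 0) (0, 1) z = - U0 z ∧
    Om e1 e2 (0, 1) (ee 0, 0) z = - U1 z := by
    filter_upwards [hev] with z hz
    obtain ⟨l1, l2, l3, l4, l5⟩ := hz
    have k := Om_eval hNR hFR f z l1 l2 l3 l4 l5 c1 c2 c3 F0 F1 hF0 hF1 hc1 hc2 hc3 e1 e2 he1 he2
      (fun i j => A i j z) (fun j => V j z) (sgm (fun y => f (y, z.2)) z.1)
      (by rw [hA]) (by rw [hV]) rfl
    rw [hE, hU0, hU1]
    exact k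
  have hz := hall.self_of_nhds
  have h0 : ContDiffAt ℝ ∞ F0 z₀ := by rw [hF0]; exact hjg 0
  have h1 : ContDiffAt ℝ ∞ F1 z₀ := by rw [hF1]; exact hjg 1
  obtain ⟨s1, s2, -⟩ := Om_frame (m := ∞) (by simp) h0 h1 hz.1 hz.2.1 c1 c2 c3 hc1 hc2 hc3 e1 e2
    he1 he2
  have hcyc := Om_cyc s1 s2 (ee 0, 0) (ee 1, 0) ((0, 1) : EE 2 × ℝ)
  have q1 : Om e1 e2 (ee 0, 0) (ee 1, 0) =ᶠ[𝓝 z₀] E := hall.mono fun z hz => hz.2.2.1
  have q2 : Om e1 e2 (ee 1, 0) (0, 1) =ᶠ[𝓝 z₀] fun z => - U0 z := hall.mono fun z hz => hz.2.2.2.1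
  have q3 : Om e1 e2 (0, 1) (ee 0, 0) =ᶠ[𝓝 z₀] fun z => - U1 z := hall.mono fun z hz => hz.2.2.2.2
  have dE : DifferentiableAt ℝ E z₀ := (Om_diff s1 s2 _ _).congr_of_eventuallyEq q1.symm
  have dU0 : DifferentiableAt ℝ (fun z => - U0 z) z₀ :=
    (Om_diff s1 s2 _ _).congr_of_eventuallyEq q2.symm
  have dU1 : DifferentiableAt ℝ (fun z => - U1 z) z₀ :=
    (Om_diff s1 s2 _ _).congr_of_eventuallyEq q3.symm
  have dU0' : DifferentiableAt ℝ U0 z₀ := by simpa using dU0.neg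
  have dU1' : DifferentiableAt ℝ U1 z₀ := by simpa using dU1.neg
  rw [q1.fderiv_eq, q2.fderiv_eq, q3.fderiv_eq, fderiv_fun_neg, fderiv_fun_neg] at hcyc
  rw [fderiv_space dU0', fderiv_space dU1']
  refine (deriv_time dE).congr_deriv ?_
  simp only [neg_apply] at hcyc
  linarith

end Helper87.MS
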