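import Pool.Agent.Helper35.MS.StE

/-!
Project MS (MP_925021_gt): module MVI (mean value inequality at a point).
-/

set_option autoImplicit false

namespace Helper87.MS

open Helper35.MS Helper35.PI Helper35.PI2 Helper32.CL
open scoped ContDiff Manifold Topology ENNReal BigOperators
open MeasureTheory Set Filter

private theorem slice {M : Type} [TopologicalSpace M] {V : Type} [TopologicalSpace V]
    {J : Set ℝ} {g : M → ℝ → V}
    (h : ContinuousOn (fun z : M × ℝ => g z.1 z.2) (univ ×ˢ J)) {t : ℝ} (ht : t ∈ J) :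
    Continuous (fun q => g q t) := by
  have h1 : Continuous (fun q : M => (q, t)) := by fun_prop
  exact ContinuousOn.comp_continuous h h1 (fun q => ⟨mem_univ _, ht⟩)

/-- the monotone quantity -/
private theorem step1 (hHUK : StHUK) (hMUJ : StMUJ) (N : ℕ) (M : Type) [TopologicalSpace M]
    [T2Space M] [CompactSpace M] [MeasurableSpace M] [BorelSpace M]
    [ChartedSpace (EE 2) M] [IsManifold (𝓡 2) ∞ M] (J : Set ℝ) (F : M → ℝ → EE N) (c : ℕ → M)
    (χ : ℕ → M → ℝ) (hS : SetupF 2 J F c χ) (u : M → ℝ → ℝ) (κ t₁ t₀ : ℝ) (hu : Evo J F u)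
    (hκ : 0 ≤ κ) (ht : t₁ < t₀) (hJ : Icc t₁ t₀ ⊆ J) (hpos : ∀ q, ∀ t ∈ Icc t₁ t₀, 0 ≤ u q t)
    (hht : ∀ q, ∀ t ∈ Icc t₁ t₀, htF F u q t ≤ κ * u q t) (y : EE N) (σ : ℝ) (hσ : 0 < σ)
    (hσ2 : σ ≤ t₀ - t₁) :
    ∫ q, u q t₀ * ((4 * Real.pi * σ)⁻¹ * Real.exp (-(‖F q t₀ - y‖ ^ 2 / (4 * σ))))
      ∂muM 2 F c χ t₀ ≤ Real.exp (κ * (t₀ - t₁)) * ((4 * Real.pi * (t₀ - t₁))⁻¹ *
        ∫ q, u q t₁ * Real.exp (-(‖F q t₁ - y‖ ^ 2 / (8 * (t₀ - t₁)))) ∂muM 2 F c χ t₁) := by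
  obtain ⟨s, -, hs⟩ := hMUJ 2 N M J F c χ hS.toJ
  have hFc : ∀ t ∈ J, Continuous (fun q => F q t) := fun t h =>
    slice hS.mcf.smooth.continuousOn h
  have huc : ∀ t ∈ J, Continuous (fun q => u q t) := fun t h => slice hu.c0 h
  obtain ⟨Φ, hΦ⟩ : ∃ Φ : M → ℝ → ℝ, Φ = (fun q t => (4 * Real.pi * ((t₀ + σ) - t))⁻¹
      * Real.exp (-(‖F q t - y‖ ^ 2 / (4 * ((t₀ + σ) - t))))) := ⟨_, rfl⟩
  have hpi := Real.pi_pos
  have hΦ0 : ∀ q, ∀ t ∈ Icc t₁ t₀, 0 ≤ Φ q t := by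
    intro q t h
    rw [hΦ]
    have : 0 < (t₀ + σ) - t := by linarith [h.2]
    positivity
  have hΦc : ∀ t ∈ J, Continuous (fun q => Φ q t) := by
    intro t h
    rw [hΦ]
    exact continuous_const.mul (Real.continuous_exp.comp
      ((((hFc t h).sub continuous_const).norm.pow 2).div_const _).neg)
  obtain ⟨G, hG⟩ : ∃ G : ℝ → ℝ, G = fun t => ∫ q, u q t * Φ q t ∂muM 2 F c χ t := ⟨_, rfl⟩
  have hder : ∀ t ∈ Icc t₁ t₀, ∃ D : ℝ, HasDerivAt G D t ∧ D ≤ κ * G t := by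
    intro t h
    obtain ⟨D, hD1, hD2⟩ := hHUK N M J F c χ hS u y (t₀ + σ) hu Φ hΦ t (hJ h)
      (by linarith [h.2]) (fun q => hpos q t h)
    refine ⟨D, by rw [hG]; exact hD1, hD2.trans ?_⟩
    have hi : Integrable (fun q => u q t * Φ q t) (muM 2 F c χ t) :=
      ((hs t (hJ h)).2.2 _ ((huc t (hJ h)).mul (hΦc t (hJ h)))).1
    have hκi : κ * G t = ∫ q, κ * (u q t * Φ q t) ∂muM 2 F c χ t := by
      rw [integral_const_mul, hG]
    by_cases hint : Integrable (fun q => htF F u q t * Φ q t) (muM 2 F c χ t)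
    · rw [hκi]
      refine integral_mono hint (hi.const_mul κ) fun q => ?_
      simp only
      have h1 := mul_le_mul_of_nonneg_right (hht q t h) (hΦ0 q t h)
      linarith
    · rw [integral_undef hint, hκi]
      refine integral_nonneg fun q => ?_
      exact mul_nonneg hκ (mul_nonneg (hpos q t h) (hΦ0 q t h))
  have hmono : Real.exp (-(κ * t₀)) * G t₀ ≤ Real.exp (-(κ * t₁)) * G t₁ := by
    have hE : ∀ t ∈ Icc t₁ t₀, ∃ D : ℝ, HasDerivAt (fun t => Real.exp (-(κ * t)) * G t) D t ∧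
        D ≤ 0 := by
      intro t h
      obtain ⟨D, hD1, hD2⟩ := hder t h
      have h1 : HasDerivAt (fun t : ℝ => -(κ * t)) (-κ) t := by
        have h0 : HasDerivAt (fun t : ℝ => κ * t) κ t := by
          simpa using (hasDerivAt_id t).const_mul κ
        exact h0.neg
      have h2 := h1.exp.mul hD1
      refine ⟨_, h2, ?_⟩
      have h3 := Real.exp_pos (-(κ * t))
      have h4 : Real.exp (-(κ * t)) * -κ * G t + Real.exp (-(κ * t)) * D =
          Real.exp (-(κ * t)) * (D - κ * G t) := by ring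
      rw [h4]
      exact mul_nonpos_of_nonneg_of_nonpos h3.le (by linarith)
    have hanti : AntitoneOn (fun t => Real.exp (-(κ * t)) * G t) (Icc t₁ t₀) := by
      apply antitoneOn_of_deriv_nonpos (convex_Icc t₁ t₀)
      · intro t h
        obtain ⟨D, hD1, _⟩ := hE t h
        exact hD1.continuousAt.continuousWithinAt
      · intro t h
        obtain ⟨D, hD1, _⟩ := hE t (interior_subset h)
        exact hD1.differentiableAt.differentiableWithinAt
      · intro t h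
        obtain ⟨D, hD1, hD2⟩ := hE t (interior_subset h)
        rw [hD1.deriv]
        exact hD2
    exact hanti (left_mem_Icc.mpr ht.le) (right_mem_Icc.mpr ht.le) ht.le
  have hmono2 : G t₀ ≤ Real.exp (κ * (t₀ - t₁)) * G t₁ := by
    have h1 := mul_le_mul_of_nonneg_left hmono (Real.exp_pos (κ * t₀)).le
    rw [← mul_assoc, ← mul_assoc, ← Real.exp_add, ← Real.exp_add] at h1
    have e1 : κ * t₀ + -(κ * t₀) = 0 := by ring
    have e2 : κ * t₀ + -(κ * t₁) = κ * (t₀ - t₁) := by ring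
    rw [e1, e2, Real.exp_zero, one_mul] at h1
    exact h1
  have hL : G t₀ = ∫ q, u q t₀ * ((4 * Real.pi * σ)⁻¹ *
      Real.exp (-(‖F q t₀ - y‖ ^ 2 / (4 * σ)))) ∂muM 2 F c χ t₀ := by
    rw [hG, hΦ]
    simp only [add_sub_cancel_left]
  rw [← hL]
  refine hmono2.trans (mul_le_mul_of_nonneg_left ?_ (Real.exp_pos _).le)
  have ht1 : t₁ ∈ Icc t₁ t₀ := left_mem_Icc.mpr ht.le
  rw [← integral_const_mul, hG]
  have hi1 : Integrable (fun q => u q t₁ * Φ q t₁) (muM 2 F c χ t₁) :=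
    ((hs t₁ (hJ ht1)).2.2 _ ((huc t₁ (hJ ht1)).mul (hΦc t₁ (hJ ht1)))).1
  have hcont : Continuous (fun q => u q t₁ * Real.exp (-(‖F q t₁ - y‖ ^ 2 / (8 * (t₀ - t₁))))) :=
    (huc t₁ (hJ ht1)).mul (Real.continuous_exp.comp
      ((((hFc t₁ (hJ ht1)).sub continuous_const).norm.pow 2).div_const _).neg)
  have hi2 := ((hs t₁ (hJ ht1)).2.2 _ hcont).1.const_mul ((4 * Real.pi * (t₀ - t₁))⁻¹)
  refine integral_mono hi1 hi2 fun q => ?_
  simp only [hΦ]
  have hd : 0 < t₀ - t₁ := by linarith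
  have hd2 : 0 < t₀ + σ - t₁ := by linarith
  have a1 : (4 * Real.pi * (t₀ + σ - t₁))⁻¹ ≤ (4 * Real.pi * (t₀ - t₁))⁻¹ := by
    apply inv_anti₀ (by positivity)
    have : 0 < 4 * Real.pi := by positivity
    nlinarith
  have a2 : Real.exp (-(‖F q t₁ - y‖ ^ 2 / (4 * (t₀ + σ - t₁)))) ≤
      Real.exp (-(‖F q t₁ - y‖ ^ 2 / (8 * (t₀ - t₁)))) := by
    apply Real.exp_le_exp.mpr
    apply neg_le_neg
    apply div_le_div_of_nonneg_left (by positivity) (by positivity)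
    linarith
  have a3 : (4 * Real.pi * (t₀ + σ - t₁))⁻¹ * Real.exp (-(‖F q t₁ - y‖ ^ 2 /
      (4 * (t₀ + σ - t₁)))) ≤ (4 * Real.pi * (t₀ - t₁))⁻¹ *
      Real.exp (-(‖F q t₁ - y‖ ^ 2 / (8 * (t₀ - t₁)))) :=
    mul_le_mul a1 a2 (Real.exp_pos _).le (by positivity)
  have a4 := mul_le_mul_of_nonneg_left a3 (hpos q t₁ ht1)
  refine a4.trans (le_of_eq ?_)
  ring

theorem hMVI (hHUK : StHUK) (hSBJ : StSBJ) (hMUJ : StMUJ) (_hFVJ : StFVJ) : StMVI := by
  intro N M _ _ _ _ _ _ _ J F c χ hS u κ t₁ t₀ hu hκ ht hJ hpos hht p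
  obtain ⟨s, -, hs⟩ := hMUJ 2 N M J F c χ hS.toJ
  have ht0 : t₀ ∈ Icc t₁ t₀ := right_mem_Icc.mpr ht.le
  have ht0J := hJ ht0
  have hFc : Continuous (fun q => F q t₀) := slice hS.mcf.smooth.continuousOn ht0J
  have huc : Continuous (fun q => u q t₀) := slice hu.c0 ht0J
  have hpi := Real.pi_pos
  have hd : 0 < t₀ - t₁ := by linarith
  obtain ⟨I, hI⟩ : ∃ I, I = ∫ q, u q t₁ * Real.exp (-(‖F q t₁ - F p t₀‖ ^ 2 /
    (8 * (t₀ - t₁)))) ∂muM 2 F c χ t₁ := ⟨_, rfl⟩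
  rw [← hI]
  have hI0 : 0 ≤ I := by
    rw [hI]
    refine integral_nonneg fun q => ?_
    exact mul_nonneg (hpos q t₁ (left_mem_Icc.mpr ht.le)) (Real.exp_pos _).le
  obtain ⟨K, hK⟩ : ∃ K, K = Real.exp (κ * (t₀ - t₁)) * ((4 * Real.pi * (t₀ - t₁))⁻¹ * I) :=
    ⟨_, rfl⟩
  have hK0 : 0 ≤ K := by
    rw [hK]
    exact mul_nonneg (Real.exp_pos _).le (mul_nonneg (by positivity) hI0)
  obtain ⟨μ, hμ⟩ : ∃ μ, μ = muM 2 F c χ t₀ := ⟨_, rfl⟩
  have hup : 0 ≤ u p t₀ := hpos p t₀ ht0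
  -- main claim
  have key : ∀ η : ℝ, 0 < η → η < 1 → η ≤ u p t₀ →
      (u p t₀ - η) * (1 - η) ≤ Real.exp 1 * K := by
    intro η hη hη1 hηu
    obtain ⟨U, hU⟩ : ∃ U : Set M, U = {q | u p t₀ - η < u q t₀} := ⟨_, rfl⟩
    have hUo : IsOpen U := by
      rw [hU]
      exact isOpen_lt continuous_const huc
    have hUp : U ∈ 𝓝 p := hUo.mem_nhds (by rw [hU]; show u p t₀ - η < u p t₀; linarith)
    have hsb := hSBJ N M J F c χ hS.toJ t₀ ht0J p U hUp η hη
    have hsm : ∀ᶠ ε in 𝓝[>] (0 : ℝ), ε ^ 2 / 4 < t₀ - t₁ := by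
      have h1 : Tendsto (fun ε : ℝ => ε ^ 2 / 4) (𝓝 0) (𝓝 ((0 : ℝ) ^ 2 / 4)) :=
        ((continuous_id.pow 2).div_const 4).tendsto 0
      have h2 : ((0 : ℝ) ^ 2 / 4) < t₀ - t₁ := by simpa using hd
      exact (h1.eventually (gt_mem_nhds h2)).filter_mono nhdsWithin_le_nhds
    obtain ⟨ε, ⟨he1, he2⟩, he3⟩ := ((hsb.and hsm).and self_mem_nhdsWithin).exists
    have hε : 0 < ε := he3
    obtain ⟨σ, hσ⟩ : ∃ σ, σ = ε ^ 2 / 4 := ⟨_, rfl⟩
    have hσ0 : 0 < σ := by rw [hσ]; positivity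
    have h1 := step1 hHUK hMUJ N M J F c χ hS u κ t₁ t₀ hu hκ ht hJ hpos hht (F p t₀) σ hσ0
      (by rw [hσ]; exact he2.le)
    rw [← hI, ← hK, ← hμ] at h1
    rw [← hμ] at he1
    obtain ⟨A, hA⟩ : ∃ A, A = U ∩ {q | ‖F q t₀ - F p t₀‖ ≤ ε} := ⟨_, rfl⟩
    rw [← hA] at he1
    have hfin : μ univ < ⊤ := by rw [hμ]; exact (hs t₀ ht0J).1
    have : IsFiniteMeasure μ := ⟨hfin⟩
    have hAm : MeasurableSet A := by
      rw [hA]
      exact hUo.measurableSet.inter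
        (isClosed_le ((hFc.sub continuous_const).norm) continuous_const).measurableSet
    have hAr : (1 - η) * Real.pi * ε ^ 2 ≤ μ.real A := by
      have h2 := ENNReal.toReal_mono (measure_ne_top μ A) he1
      have h3 : 0 < 1 - η := by linarith
      rwa [ENNReal.toReal_ofReal (by positivity)] at h2
    obtain ⟨g, hg⟩ : ∃ g : M → ℝ, g = fun q => u q t₀ * ((4 * Real.pi * σ)⁻¹ *
      Real.exp (-(‖F q t₀ - F p t₀‖ ^ 2 / (4 * σ)))) := ⟨_, rfl⟩
    have hgc : Continuous g := by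
      rw [hg]
      exact huc.mul (continuous_const.mul (Real.continuous_exp.comp
        (((hFc.sub continuous_const).norm.pow 2).div_const _).neg))
    have hgi : Integrable g μ := by rw [hμ]; exact ((hs t₀ ht0J).2.2 g hgc).1
    have hg0 : ∀ q, 0 ≤ g q := by
      intro q
      rw [hg]
      exact mul_nonneg (hpos q t₀ ht0) (by positivity)
    have h2 : ∫ q in A, ((u p t₀ - η) * ((4 * Real.pi * σ)⁻¹ * Real.exp (-1))) ∂μ ≤
        ∫ q in A, g q ∂μ := by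
      refine setIntegral_mono_on (integrable_const _) hgi.integrableOn hAm fun q hq => ?_
      rw [hA] at hq
      have hq1 : u p t₀ - η < u q t₀ := by
        have := hq.1
        rw [hU] at this
        exact this
      have hq2 : ‖F q t₀ - F p t₀‖ ≤ ε := hq.2
      have hq3 : ‖F q t₀ - F p t₀‖ ^ 2 ≤ ε ^ 2 := pow_le_pow_left₀ (norm_nonneg _) hq2 2
      rw [hg]
      have h3 : Real.exp (-1) ≤ Real.exp (-(‖F q t₀ - F p t₀‖ ^ 2 / (4 * σ))) := by
        apply Real.exp_le_exp.mpr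
        apply neg_le_neg
        rw [div_le_one (by positivity), hσ]
        linarith
      exact mul_le_mul hq1.le (mul_le_mul_of_nonneg_left h3 (by positivity)) (by positivity)
        (hpos q t₀ ht0)
    have h3 : ∫ q in A, g q ∂μ ≤ ∫ q, g q ∂μ :=
      setIntegral_le_integral hgi (Eventually.of_forall hg0)
    have h4 : ∫ q, g q ∂μ ≤ K := by rw [hg]; exact h1
    rw [setIntegral_const, smul_eq_mul] at h2
    have h5 : (1 - η) * Real.pi * ε ^ 2 * ((u p t₀ - η) * ((4 * Real.pi * σ)⁻¹ * Real.exp (-1)))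
        ≤ μ.real A * ((u p t₀ - η) * ((4 * Real.pi * σ)⁻¹ * Real.exp (-1))) :=
      mul_le_mul_of_nonneg_right hAr (mul_nonneg (by linarith) (by positivity))
    have h6 : (1 - η) * Real.pi * ε ^ 2 * ((u p t₀ - η) * ((4 * Real.pi * σ)⁻¹ * Real.exp (-1)))
        = (u p t₀ - η) * (1 - η) * Real.exp (-1) := by
      rw [hσ]
      field_simp
    have h7 : (u p t₀ - η) * (1 - η) * Real.exp (-1) ≤ K := by
      rw [← h6]
      exact h5.trans (h2.trans (h3.trans h4))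
    have h8 := mul_le_mul_of_nonneg_left h7 (Real.exp_pos 1).le
    have h9 : Real.exp 1 * ((u p t₀ - η) * (1 - η) * Real.exp (-1)) =
        (u p t₀ - η) * (1 - η) := by
      have : Real.exp 1 * Real.exp (-1) = 1 := by rw [← Real.exp_add]; simp
      linear_combination ((u p t₀ - η) * (1 - η)) * this
    linarith
  -- the limit
  have hlim : u p t₀ ≤ Real.exp 1 * K := by
    rcases hup.eq_or_lt with h0 | h0
    · rw [← h0]
      exact mul_nonneg (Real.exp_pos 1).le hK0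
    · have h1 : Tendsto (fun η : ℝ => (u p t₀ - η) * (1 - η)) (𝓝[>] 0)
          (𝓝 ((u p t₀ - 0) * (1 - 0))) := by
        have : Continuous (fun η : ℝ => (u p t₀ - η) * (1 - η)) := by fun_prop
        exact (this.tendsto 0).mono_left nhdsWithin_le_nhds
      rw [sub_zero, sub_zero, mul_one] at h1
      refine le_of_tendsto h1 ?_
      have e1 : ∀ᶠ η in 𝓝[>] (0 : ℝ), η < 1 :=
        (eventually_lt_nhds (by norm_num)).filter_mono nhdsWithin_le_nhds
      have e2 : ∀ᶠ η in 𝓝[>] (0 : ℝ), η < u p t₀ :=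
        (eventually_lt_nhds h0).filter_mono nhdsWithin_le_nhds
      filter_upwards [e1, e2, self_mem_nhdsWithin] with η h2 h3 h4
      exact key η h4 h2 h3.le
  refine hlim.trans ?_
  rw [hK]
  have he : Real.exp 1 ≤ Real.pi := by
    have := Real.exp_one_lt_d9
    have := Real.pi_gt_d2
    linarith
  have h1 : Real.exp 1 * (4 * Real.pi * (t₀ - t₁))⁻¹ ≤ 1 / 4 / (t₀ - t₁) := by
    rw [← div_eq_mul_inv, div_le_div_iff₀ (by positivity) hd]
    nlinarith
  have h2 : 0 ≤ Real.exp (κ * (t₀ - t₁)) * I := mul_nonneg (Real.exp_pos _).le hI0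
  have h3 := mul_le_mul_of_nonneg_right h1 h2
  calc Real.exp 1 * (Real.exp (κ * (t₀ - t₁)) * ((4 * Real.pi * (t₀ - t₁))⁻¹ * I))
      = Real.exp 1 * (4 * Real.pi * (t₀ - t₁))⁻¹ * (Real.exp (κ * (t₀ - t₁)) * I) := by ring
    _ ≤ _ := h3
    _ = _ := by ring

end Helper87.MS
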